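import Pool.Agent.Q269.GL.StC
import Pool.Agent.Q52.GJ.CNJ

/-!
# Project GL (helper269): job CNF (helper299)

Builds on `Pool/Agent/Q52/GJ/CNJ.lean` (helper52).
-/

set_option autoImplicit false
set_option linter.all false

open scoped Classical
open Finset Polynomial

namespace Pool.Agent.Q299.GL

open Pool.Agent.Q269.GR (F2 cf IsRt hv own Dn pr xi Pfam sy)
open Pool.Agent.Q269.GJ
open Pool.Agent.Q269.GL
open Pool.Agent.Q52.GJ (charF cf_sq lap_dot lap_sum eqn_apply eqn_add eqn_smul eqn_sum AM pairing hv_sq own_sq own_inv)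
open Pool.Agent.Y164.PS (L sg L_comm L_neg_left)

section gen

variable {F V : Type} [Field F] [AddCommGroup V] [Module F V] [FiniteDimensional F V]

theorem fr_adj (e : V ≃ₗ[F] Module.Dual F V) (A A' : V →ₗ[F] V) (h : ∀ v w, e v (A w) = e (A' v) w) :
    Module.finrank F (LinearMap.ker A') = Module.finrank F (LinearMap.ker A) := by
  have hc : (e : V →ₗ[F] Module.Dual F V) ∘ₗ A' = A.dualMap ∘ₗ (e : V →ₗ[F] Module.Dual F V) := by
    ext v w
    simp only [LinearMap.comp_apply, LinearEquiv.coe_coe, LinearMap.dualMap_apply]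
    exact (h v w).symm
  have h1 : Module.finrank F (LinearMap.range ((e : V →ₗ[F] Module.Dual F V) ∘ₗ A')) =
      Module.finrank F (LinearMap.range A') := by
    rw [LinearMap.range_comp]
    exact (LinearEquiv.finrank_eq (e.submoduleMap (LinearMap.range A'))).symm
  have h2 : Module.finrank F (LinearMap.range (A.dualMap ∘ₗ (e : V →ₗ[F] Module.Dual F V))) =
      Module.finrank F (LinearMap.range A) := by
    rw [LinearMap.range_comp_of_range_eq_top _ (LinearEquiv.range e)]
    exact LinearMap.finrank_range_dualMap_eq_finrank_range A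
  rw [hc, h2] at h1
  have e1 := LinearMap.finrank_range_add_finrank_ker A
  have e2 := LinearMap.finrank_range_add_finrank_ker A'
  omega

end gen

section lin

variable {F : Type} [Field F] [Fintype F] [Algebra F2 F] {n : ℕ} {J : Type} [Fintype J]

theorem Kn_ker (M : J → J → F) (dd : J → F) (x : J → Fin n → Fin n → F2) (hx : ∀ i, Sy (x i)) :
    Kn M dd x = LinearMap.ker (AM M dd x hx) := by
  ext w
  rw [mem_Kn, LinearMap.mem_ker]
  constructor
  · intro h
    funext i
    exact Subtype.ext (h i)
  · intro h i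
    exact congrArg Subtype.val (congrFun h i)

/-- the dot product -/
noncomputable def dotB (J : Type) [Fintype J] (n : ℕ) (F : Type) [Field F] :
    (J → W0 n F) →ₗ[F] Module.Dual F (J → W0 n F) where
  toFun v :=
    { toFun := fun w => ∑ i, ∑ l, (v i).1 l * (w i).1 l
      map_add' := by
        intro w w'
        simp only [Pi.add_apply, Submodule.coe_add, mul_add, sum_add_distrib]
      map_smul' := by
        intro t w
        simp only [Pi.smul_apply, Submodule.coe_smul, smul_eq_mul, RingHom.id_apply, mul_sum]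
        refine sum_congr rfl fun i _ => sum_congr rfl fun l _ => ?_
        ring }
  map_add' := by
    intro v v'
    refine LinearMap.ext fun w => ?_
    simp only [Pi.add_apply, Submodule.coe_add, add_mul, sum_add_distrib, LinearMap.coe_mk, AddHom.coe_mk,
      LinearMap.add_apply]
  map_smul' := by
    intro t v
    refine LinearMap.ext fun w => ?_
    simp only [Pi.smul_apply, Submodule.coe_smul, smul_eq_mul, RingHom.id_apply, mul_sum, LinearMap.coe_mk,
      AddHom.coe_mk, LinearMap.smul_apply]
    refine sum_congr rfl fun i _ => sum_congr rfl fun l _ => ?_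
    ring

theorem dotB_apply (v w : J → W0 n F) : dotB J n F v w = ∑ i, ∑ l, (v i).1 l * (w i).1 l := rfl

theorem dotB_inj (hn : Odd n) : Function.Injective (dotB J n F) := by
  have := charF (F := F)
  rw [injective_iff_map_eq_zero]
  intro v hv
  have hz : ∀ w' : J → W0 n F, ∑ i, ∑ l, (v i).1 l * (w' i).1 l = 0 := by
    intro w'
    rw [← dotB_apply, hv]
    rfl
  funext i
  apply Subtype.ext
  have h1 : ∀ u : W0 n F, ∑ l, (v i).1 l * u.1 l = 0 := by
    intro u
    have e := hz (Pi.single i u)
    rw [sum_eq_single i] at e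
    · simpa using e
    · intro j _ hj
      rw [Pi.single_eq_of_ne hj]
      simp
    · simp
  have h2 : ∀ l l' : Fin n, (v i).1 l = (v i).1 l' := by
    intro l l'
    by_cases hl : l = l'
    · rw [hl]
    have hu : (fun y : Fin n => (if y = l then (1 : F) else 0) + if y = l' then 1 else 0) ∈ W0 n F := by
      change ∑ y, ((if y = l then (1 : F) else 0) + if y = l' then 1 else 0) = 0
      rw [sum_add_distrib]
      simp [CharTwo.add_self_eq_zero]
    have e := h1 ⟨_, hu⟩
    simp only [mul_add, sum_add_distrib, mul_ite, mul_one, mul_zero, sum_ite_eq', mem_univ, if_true] at e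
    exact CharTwo.add_eq_zero.1 e
  funext l
  have h3 := W0_sum (v i)
  rw [sum_congr rfl fun l' _ => h2 l' l, sum_const, card_univ, Fintype.card_fin, nsmul_eq_mul] at h3
  obtain ⟨s, rfl⟩ := hn
  have h4 : ((2 * s + 1 : ℕ) : F) = 1 := by
    push_cast
    rw [CharTwo.two_eq_zero, zero_mul, zero_add]
  rw [h4, one_mul] at h3
  exact h3


theorem kn_inv_fr (hn : Odd n) (M M' : J → J → F) (dd : J → F) (x : J → Fin n → Fin n → F2)
    (hx : ∀ i, Sy (x i)) (hM : ∀ i j, i ≠ j → M' i j = M j i) :
    Module.finrank F (Kn M' dd x) = Module.finrank F (Kn M dd x) := by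
  rw [Kn_ker M dd x hx, Kn_ker M' dd x hx]
  have hbij : Function.Bijective (dotB J n F) := by
    have hinj := dotB_inj (F := F) (J := J) hn
    refine ⟨hinj, ?_⟩
    exact (LinearMap.injective_iff_surjective_of_finrank_eq_finrank
      (Subspace.dual_finrank_eq (K := F) (V := J → W0 n F)).symm).1 hinj
  refine fr_adj (LinearEquiv.ofBijective (dotB J n F) hbij) _ _ ?_
  intro v w
  exact pairing M M' dd x hx hM v w

theorem kn_frob_fr (M M' : J → J → F) (dd dd' : J → F) (x : J → Fin n → Fin n → F2)
    (hM : ∀ i j, i ≠ j → M' i j = M i j ^ 2) (hd : ∀ i, dd' i = dd i ^ 2) :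
    Module.finrank F (Kn M' dd' x) = Module.finrank F (Kn M dd x) := by
  have := charF (F := F)
  have hfi : Function.Injective (frobenius F 2) := frobenius_inj F 2
  have hfs : Function.Surjective (frobenius F 2) := Finite.surjective_of_injective hfi
  -- the map w ↦ w²
  have hv0 : ∀ u : W0 n F, (fun l => frobenius F 2 (u.1 l)) ∈ W0 n F := by
    intro u
    change ∑ l, frobenius F 2 (u.1 l) = 0
    rw [← map_sum, W0_sum u, map_zero]
  set ψ : (J → W0 n F) → (J → W0 n F) := fun w i => ⟨fun l => frobenius F 2 ((w i).1 l), hv0 (w i)⟩ with hψ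
  have hψi : Function.Injective ψ := by
    intro w w' h
    funext i
    apply Subtype.ext
    funext l
    exact hfi (congrFun (congrArg Subtype.val (congrFun h i)) l)
  have hψs : Function.Surjective ψ := Finite.surjective_of_injective hψi
  have hmem : ∀ w, w ∈ Kn M dd x ↔ ψ w ∈ Kn M' dd' x := by
    intro w
    have key : ∀ i l, frobenius F 2 (eqn M dd x w i l) = eqn M' dd' x (ψ w) i l := by
      intro i l
      rw [eqn_apply, eqn_apply]
      simp only [lap]
      simp only [map_add, map_sum, map_mul]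
      congr 1
      · congr 1
        · refine sum_congr rfl fun j _ => ?_
          by_cases hji : j = i
          · simp only [hji, if_true, map_zero, zero_mul]
          · simp only [if_neg hji, hM i j (Ne.symm hji), frobenius_def]
            rfl
        · rw [hd, frobenius_def]
      · refine sum_congr rfl fun l' _ => ?_
        rw [frobenius_def, cf_sq]
    rw [mem_Kn, mem_Kn]
    constructor
    · intro h i
      funext l
      rw [← key, h i]
      simp
    · intro h i
      funext l
      apply hfi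
      rw [key, h i]
      simp
  have hcard : Nat.card (Kn M dd x) = Nat.card (Kn M' dd' x) := by
    refine Nat.card_congr (Equiv.ofBijective (fun w => ⟨ψ w.1, (hmem w.1).1 w.2⟩) ⟨?_, ?_⟩)
    · intro w w' h
      exact Subtype.ext (hψi (congrArg Subtype.val h))
    · rintro ⟨w, hw⟩
      obtain ⟨v, rfl⟩ := hψs w
      exact ⟨⟨v, (hmem v).2 hw⟩, rfl⟩
  have e1 := Module.natCard_eq_pow_finrank (K := F) (V := Kn M dd x)
  have e2 := Module.natCard_eq_pow_finrank (K := F) (V := Kn M' dd' x)
  rw [e1, e2] at hcard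
  have hF : 1 < Nat.card F := Finite.one_lt_card
  exact (Nat.pow_right_injective hF hcard).symm

theorem kf_inv {k : Type} [Field k] [Fintype k] (hn : Odd n) (r : ℕ) (ξ : F) (a : Fin n → k[X]) {ι : Type}
    [Fintype ι] (P : ι → k[X]) (h1 : ∀ i, r ∣ (P i).natDegree → own r ξ⁻¹ (P i) = own r ξ (P i))
    (h2 : ∀ i, Sy (xb a (P i)))
    (h3 : ∀ i j, r ∣ (P i).natDegree → r ∣ (P j).natDegree → i ≠ j → hv r ξ⁻¹ (P j) (P i) = hv r ξ (P i) (P j)) :
    Module.finrank F (KF r ξ⁻¹ a P) = Module.finrank F (KF r ξ a P) := by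
  unfold KF
  have e : (fun i : {i : ι // r ∣ (P i).natDegree} =>
      own r ξ⁻¹ (P i.1) + cf (∑ j, if j = i.1 then 0 else L (P j) (P i.1))) =
      fun i => own r ξ (P i.1) + cf (∑ j, if j = i.1 then 0 else L (P j) (P i.1)) := by
    funext i
    rw [h1 i.1 i.2]
  rw [e]
  refine kn_inv_fr hn _ _ _ _ (fun i => h2 i.1) ?_
  intro i j hij
  exact h3 i.1 j.1 i.2 j.2 fun h => hij (Subtype.ext h)

theorem kf_sq {k : Type} [Field k] [Fintype k] (r : ℕ) (ξ : F) (a : Fin n → k[X]) {ι : Type}
    [Fintype ι] (P : ι → k[X]) :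
    Module.finrank F (KF r (ξ ^ 2) a P) = Module.finrank F (KF r ξ a P) := by
  have := charF (F := F)
  unfold KF
  refine kn_frob_fr _ _ _ _ _ ?_ ?_
  · intro i j _
    exact hv_sq r ξ _ _
  · intro i
    rw [own_sq, CharTwo.add_sq, cf_sq]

end lin

/-- **GL-CNF.** -/
theorem t_CNF (h1 : Pool.Agent.Q269.GR.S_SYP) (h2 : Pool.Agent.Q269.GR.S_UNR)
    (h3 : Pool.Agent.Q269.GR.S_PRD) : S_CNF := by
  intro k _ _ hk hm Δ hΔ n hn a m D hD r F _ _ _ ξ hξ
  obtain ⟨p1, p2, p3, p4, p5, p6⟩ := h3 k Δ hΔ
  have hfam := p3 m D hD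
  have hr0 : 0 < r := by have := hξ.lt; omega
  have hξr : ξ ^ r = 1 := by rw [← hξ.ord]; exact pow_orderOf_eq_one ξ
  refine ⟨kf_sq r ξ a _, ?_⟩
  refine kf_inv hn r ξ a _ ?_ ?_ ?_
  · intro i hi
    refine own_inv hr0 hξr fun c hc hc0 => ?_
    exact (h1 k hk hm (i : k[X]) (i : k[X]) r (hfam.mon i) (hfam.irr i) (hfam.mon i)
      (hfam.irr i) hr0 hi hi).2.2.2.1 c hc hc0
  · intro i l l'
    have hL := L_neg_left hk hm (f := a l - a l') (hfam.mon i) (hfam.irr i)
    unfold xb
    rw [← hL, neg_sub]
  · intro i j hi hj hij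
    have hne : (j : k[X]) ≠ (i : k[X]) := fun h => hij (Subtype.ext h).symm
    exact ((h1 k hk hm (j : k[X]) (i : k[X]) r (hfam.mon j) (hfam.irr j) (hfam.mon i)
      (hfam.irr i) hr0 hj hi).2.2.2.2.2 hne F ξ hξr).symm

end Pool.Agent.Q299.GL
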