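import Pool.Agent.Q269.GL.StC
import Pool.Agent.Q210.GR.Nic

/-!
# Project GL (helper269): job NIM (helper299)

Most elements of a cell have nice data, with parameters. Adapted from `Pool/Agent/Q198/GJ/NIC.lean` (helper198)
and `Pool/Agent/Q210/GR/Nic.lean` (helper210).
-/

set_option autoImplicit false
set_option linter.all false

open scoped Classical
open Finset Polynomial

namespace Pool.Agent.Q299.GL

open Pool.Agent.Q269.GL
open Pool.Agent.Q269.GJ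
open Pool.Agent.Q269.GR (F2 IsRt hv own Irn Dn pr Pfam dg Ce IsCe FxR owR S_INJ S_UNR S_SYP S_IRC S_PRD)
open Pool.Agent.Y164.PS (L sg)
open Pool.Agent.Q210.GR (box_few box_count one_prime)

theorem bad_inj2 {k : Type} [Field k] [Fintype k] (h1 : S_INJ) (h4 : S_IRC) (hk : ringChar k ≠ 2) (hq : 5 ≤ Fintype.card k)
    {Δ : k[X]} {m : ℕ} {P0 : Fin m → k[X]} {mv : Finset (Fin m)} (hce : IsCe Δ P0 mv)
    {r : ℕ} {F : Type} [Field F] [Fintype F] [Algebra F2 F] {ζ : F} (hζ : IsRt r ζ) (hF4 : 4 ≤ Fintype.card F)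
    (hbig : ∀ j ∈ mv, 12 * 2 ^ r * (∑ i ∈ univ.filter (· ∉ mv), (dg P0 i : ℝ) + 2) ≤
      Real.sqrt ((Fintype.card k : ℝ) ^ dg P0 j))
    (hcard : (univ.filter fun i => i ∉ mv ∧ r ∣ dg P0 i).card ≤ (mv.filter fun i => r ∣ dg P0 i).card) :
    (((Fintype.piFinset (Ce P0 mv)).filter fun T => ∃ v : Fin m → F, v ≠ 0 ∧
      (∀ i, ¬ (i ∉ mv ∧ r ∣ dg P0 i) → v i = 0) ∧
      ∀ j ∈ mv.filter (fun i => r ∣ dg P0 i), ∑ i, v i * hv r ζ (P0 i) (T j) = 0).card : ℝ) ≤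
      4 ^ (univ.filter fun i => i ∉ mv ∧ r ∣ dg P0 i).card *
        (1 / 3) ^ (mv.filter fun i => r ∣ dg P0 i).card * (Fintype.piFinset (Ce P0 mv)).card := by
  set S := univ.filter fun i => i ∉ mv ∧ r ∣ dg P0 i with hS
  set Λ := mv.filter fun i => r ∣ dg P0 i with hΛ
  set V := (univ : Finset (Fin m → F)).filter (fun v => v ≠ 0 ∧ ∀ i, i ∉ S → v i = 0) with hV
  have hmemS : ∀ i, i ∈ S ↔ (i ∉ mv ∧ r ∣ dg P0 i) := fun i => by simp [hS]
  have hVc : V.card ≤ Fintype.card F ^ S.card := by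
    have h2 : V.card ≤ (Fintype.piFinset (fun i : Fin m => if i ∈ S then (univ : Finset F) else {0})).card := by
      refine card_le_card fun v hv => ?_
      rw [Fintype.mem_piFinset]
      intro i
      have := (mem_filter.1 hv).2.2 i
      split_ifs with hi
      · exact mem_univ _
      · exact mem_singleton.2 (this hi)
    refine h2.trans (le_of_eq ?_)
    rw [Fintype.card_piFinset]
    have : ∀ i : Fin m, (if i ∈ S then (univ : Finset F) else {0}).card = if i ∈ S then Fintype.card F else 1 := by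
      intro i
      split_ifs
      · exact card_univ
      · exact card_singleton _
    rw [prod_congr rfl fun i _ => this i, prod_ite, prod_const_one, mul_one, prod_const]
    congr 2
    ext j
    simp
  have hunion : ((Fintype.piFinset (Ce P0 mv)).filter fun T => ∃ v : Fin m → F, v ≠ 0 ∧
      (∀ i, ¬ (i ∉ mv ∧ r ∣ dg P0 i) → v i = 0) ∧ ∀ j ∈ Λ, ∑ i, v i * hv r ζ (P0 i) (T j) = 0) ⊆
      V.biUnion fun v => (Fintype.piFinset (Ce P0 mv)).filter fun T =>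
        ∀ j ∈ Λ, ∑ i, v i * hv r ζ (P0 i) (T j) = 0 := by
    intro T hT
    obtain ⟨hT1, v, hv0, hvs, hvj⟩ := mem_filter.1 hT
    rw [mem_biUnion]
    refine ⟨v, mem_filter.2 ⟨mem_univ _, hv0, fun i hi => hvs i fun h => hi ((hmemS i).2 h)⟩,
      mem_filter.2 ⟨hT1, hvj⟩⟩
  have hF4' : (4 : ℝ) ≤ Fintype.card F := by exact_mod_cast hF4
  set f := (Fintype.card F : ℝ) with hf
  have hf0 : 0 < f := by linarith
  have hone : ∀ v ∈ V, (((Fintype.piFinset (Ce P0 mv)).filter fun T =>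
        ∀ j ∈ Λ, ∑ i, v i * hv r ζ (P0 i) (T j) = 0).card : ℝ) ≤
      (4 / (3 * f)) ^ Λ.card * (Fintype.piFinset (Ce P0 mv)).card := by
    intro v hvV
    obtain ⟨_, hv0, hvs⟩ := mem_filter.1 hvV
    refine box_count (Ce P0 mv) Λ (fun j P' => ∑ i, v i * hv r ζ (P0 i) P' = 0) fun j hj => ?_
    obtain ⟨hj1, hj2⟩ := mem_filter.1 hj
    exact one_prime h1 h4 hk hq hce hζ hF4 hj1 hj2 (hbig j hj1) hv0 fun i hi => hvs i fun h => hi ((hmemS i).1 h)
  set Np := ((Fintype.piFinset (Ce P0 mv)).card : ℝ) with hNp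
  have h7 : (((Fintype.piFinset (Ce P0 mv)).filter fun T => ∃ v : Fin m → F, v ≠ 0 ∧
      (∀ i, ¬ (i ∉ mv ∧ r ∣ dg P0 i) → v i = 0) ∧ ∀ j ∈ Λ, ∑ i, v i * hv r ζ (P0 i) (T j) = 0).card : ℝ) ≤
      f ^ S.card * ((4 / (3 * f)) ^ Λ.card * Np) := by
    have e1 := (card_le_card hunion).trans card_biUnion_le
    calc _ ≤ ∑ v ∈ V, (((Fintype.piFinset (Ce P0 mv)).filter fun T =>
        ∀ j ∈ Λ, ∑ i, v i * hv r ζ (P0 i) (T j) = 0).card : ℝ) := by exact_mod_cast e1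
      _ ≤ ∑ v ∈ V, (4 / (3 * f)) ^ Λ.card * Np := sum_le_sum hone
      _ = V.card * ((4 / (3 * f)) ^ Λ.card * Np) := by rw [sum_const, nsmul_eq_mul]
      _ ≤ _ := by
          refine mul_le_mul_of_nonneg_right ?_ (by positivity)
          have e9 : (V.card : ℝ) ≤ ((Fintype.card F ^ S.card : ℕ) : ℝ) := by exact_mod_cast hVc
          rw [Nat.cast_pow] at e9
          exact e9
  refine h7.trans ?_
  rw [← mul_assoc]
  refine mul_le_mul_of_nonneg_right ?_ (by positivity)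
  -- numbers
  obtain ⟨t, ht⟩ := Nat.exists_eq_add_of_le hcard
  have e2 : f ^ S.card * (4 / (3 * f)) ^ Λ.card = (4 / 3) ^ Λ.card * (1 / f) ^ t := by
    rw [ht, pow_add, pow_add]
    have e3 : (4 / (3 * f)) = (4 / 3) * (1 / f) := by field_simp
    rw [e3, mul_pow, mul_pow]
    have e4 : f ^ S.card * (1 / f) ^ S.card = 1 := by
      rw [← mul_pow, mul_one_div_cancel hf0.ne', one_pow]
    calc f ^ S.card * ((4 / 3) ^ S.card * (1 / f) ^ S.card * ((4 / 3) ^ t * (1 / f) ^ t)) =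
        (f ^ S.card * (1 / f) ^ S.card) * ((4 / 3) ^ S.card * (4 / 3) ^ t * (1 / f) ^ t) := by ring
      _ = _ := by rw [e4, one_mul]
  rw [e2]
  have e5 : (1 / f) ^ t ≤ (1 / 4 : ℝ) ^ t := by
    refine pow_le_pow_left₀ (by positivity) ?_ _
    exact one_div_le_one_div_of_le (by norm_num) hF4'
  calc (4 / 3) ^ Λ.card * (1 / f) ^ t ≤ (4 / 3) ^ Λ.card * (1 / 4 : ℝ) ^ t :=
        mul_le_mul_of_nonneg_left e5 (by positivity)
    _ = 4 ^ S.card * (1 / 3) ^ Λ.card := by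
        rw [ht, pow_add, pow_add]
        have e6 : (4 / 3 : ℝ) ^ t * (1 / 4) ^ t = (1 / 3) ^ t := by rw [← mul_pow]; norm_num
        have e7 : (4 / 3 : ℝ) ^ S.card = 4 ^ S.card * (1 / 3) ^ S.card := by rw [← mul_pow]; norm_num
        rw [mul_assoc, e6, e7]
        ring

/-- **GL-NIM.** -/
theorem t_NIM (h1 : S_INJ) (h2 : S_UNR) (h3 : S_SYP) (h4 : S_IRC) (h5 : S_PRD) : S_NIM := by
  intro C M0 k _ _ hk hm hq Δ hΔ n hn a m P0 mv hce r F _ _ _ ξ hξ hyn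
  obtain ⟨_, _, _, _, _, p6⟩ := h5 k _ hΔ
  obtain ⟨_, u2, u3, _⟩ := h2 r F ξ hξ
  have hr0 : 0 < r := by have := hξ.lt; omega
  have hξr : ξ ^ r = 1 := by rw [← hξ.ord]; exact pow_orderOf_eq_one ξ
  obtain ⟨heqd, hbig, hcard⟩ := hyn
  unfold sfx smv at hcard
  set S := univ.filter fun i => i ∉ mv ∧ r ∣ dg P0 i with hS
  set Λ := mv.filter fun i => r ∣ dg P0 i with hΛ
  set M := C * S.card + M0 with hM
  have hmemS : ∀ i, i ∈ S ↔ (i ∉ mv ∧ r ∣ dg P0 i) := fun i => by simp [hS]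
  set Pi := Fintype.piFinset (Ce P0 mv) with hPi
  set Np := (Pi.card : ℝ) with hNp
  set X := 2 ^ M * (5 / 6) ^ Λ.card * Np with hX
  set Y := 4 ^ S.card * (1 / 3) ^ Λ.card * Np with hY
  have hX0 : 0 ≤ X := by positivity
  set A : F → Finset (Fin m → k[X]) := fun ζ => Pi.filter fun T => ∃ v : Fin m → F, v ≠ 0 ∧
      (∀ i, ¬ (i ∉ mv ∧ r ∣ dg P0 i) → v i = 0) ∧
      ∀ j ∈ Λ, ∑ i, v i * hv r ζ (P0 i) (T j) = 0 with hA
  have hA1 : ((A ξ).card : ℝ) ≤ Y := bad_inj2 h1 h4 hk hq hce hξ u3 hbig hcard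
  have hA2 : ((A ξ⁻¹).card : ℝ) ≤ Y := bad_inj2 h1 h4 hk hq hce u2 u3 hbig hcard
  set G : (Fin n → Fin n → F2) → Finset (Fin m → k[X]) := fun φ => Pi.filter fun T =>
    (Λ.filter fun j => pai φ (xb a (T j)) ≠ 0).card < M with hG
  set Φ := (univ : Finset (Fin n → Fin n → F2)).filter (fun φ => ∃ l l', l < l' ∧ φ l l' ≠ 0) with hΦ
  have hG1 : ∀ φ ∈ Φ, ((G φ).card : ℝ) ≤ X := by
    intro φ hφ
    have hφ' := (mem_filter.1 hφ).2
    have hb := box_few (Ce P0 mv) Λ (fun j P => pai φ (xb a P) ≠ 0) M (fun j hj => by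
        have hj1 := (mem_filter.1 hj).1
        have hC : Ce P0 mv j = Irn k (dg P0 j) := by rw [Ce, if_pos hj1]
        rw [hC]
        convert heqd j hj1 φ hφ' using 6)
    refine le_trans (le_of_eq ?_) hb
    congr 2
    ext T
    rw [hG, mem_filter, mem_filter]
    refine and_congr_right fun _ => ?_
    rw [iff_iff_eq]
    congr
  have hc3 : ((Φ.card : ℕ) : ℝ) ≤ 2 ^ (n ^ 2) := by
    have h1 : Φ.card ≤ 2 ^ (n ^ 2) := by
      refine (card_filter_le _ _).trans (le_of_eq ?_)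
      rw [card_univ, Fintype.card_fun, Fintype.card_fun, Fintype.card_fin, ← pow_mul, sq]
      congr 1
    exact_mod_cast h1
  have hsub : (Pi.filter fun T => ¬ NiceC (dg P0) mv C M0 r (FxR r ξ T) (xR a T)) ⊆
      (A ξ ∪ A ξ⁻¹) ∪ Φ.biUnion G := by
    intro T hT
    obtain ⟨hT1, hT2⟩ := mem_filter.1 hT
    obtain ⟨hfam, hdeg, hfix⟩ := p6 m P0 mv hce T hT1
    have hinv : ∀ i j, i ≠ j → r ∣ dg P0 i → r ∣ dg P0 j → hv r ξ (T j) (T i) = hv r ξ⁻¹ (T i) (T j) := by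
      intro i j hij hi hj
      exact (h3 k hk hm (T i) (T j) r (hfam.mon i) (hfam.irr i) (hfam.mon j) (hfam.irr j)
        hr0 (by rw [hdeg]; exact hi) (by rw [hdeg]; exact hj)).2.2.2.2.2
        (fun h => hij (hfam.inj h)) F ξ hξr
    by_contra hcon
    rw [mem_union, mem_union, not_or, not_or] at hcon
    obtain ⟨⟨c1, c2⟩, c3⟩ := hcon
    apply hT2
    refine ⟨fun v hvs hvj => ?_, fun v hvs hvj => ?_, fun φ hφ => ?_⟩
    · by_contra hv0
      apply c2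
      refine mem_filter.2 ⟨hT1, v, hv0, hvs, fun j hj => ?_⟩
      obtain ⟨hj1, hj2⟩ := mem_filter.1 hj
      rw [← hvj j hj1 hj2]
      refine sum_congr rfl fun i _ => ?_
      by_cases hi : i ∉ mv ∧ r ∣ dg P0 i
      · have hij : i ≠ j := fun h => hi.1 (h ▸ hj1)
        rw [FxR, if_neg hij, hinv i j hij hi.2 hj2, hfix i hi.1]
      · rw [hvs i hi, zero_mul, zero_mul]
    · by_contra hv0
      apply c1
      refine mem_filter.2 ⟨hT1, v, hv0, hvs, fun j hj => ?_⟩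
      obtain ⟨hj1, hj2⟩ := mem_filter.1 hj
      rw [← hvj j hj1 hj2]
      refine sum_congr rfl fun i _ => ?_
      by_cases hi : i ∉ mv ∧ r ∣ dg P0 i
      · have hij : j ≠ i := fun h => hi.1 (h ▸ hj1)
        rw [FxR, if_neg hij, hfix i hi.1]
      · rw [hvs i hi, zero_mul, zero_mul]
    · by_contra hlt
      push Not at hlt
      apply c3
      rw [mem_biUnion]
      exact ⟨φ, mem_filter.2 ⟨mem_univ _, hφ⟩, mem_filter.2 ⟨hT1, hlt⟩⟩
  have hle := (card_le_card hsub).trans ((card_union_le _ _).trans (Nat.add_le_add (card_union_le _ _)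
    card_biUnion_le))
  have hle2 : (((Pi.filter fun T => ¬ NiceC (dg P0) mv C M0 r (FxR r ξ T) (xR a T)).card : ℕ) : ℝ) ≤
      ((A ξ).card + (A ξ⁻¹).card : ℝ) + ∑ φ ∈ Φ, ((G φ).card : ℝ) := by
    exact_mod_cast hle
  have hsum := sum_le_sum hG1
  rw [sum_const, nsmul_eq_mul] at hsum
  have hsum2 := mul_le_mul_of_nonneg_right hc3 hX0
  have h1p : (1 : ℝ) ≤ 2 ^ (n ^ 2) := one_le_pow₀ (by norm_num)
  have hNp0 : 0 ≤ Np := Nat.cast_nonneg _
  have g0 : (0 : ℝ) ≤ (5 / 6 : ℝ) ^ Λ.card * Np := by positivity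
  have g1 : Y ≤ 2 ^ ((C + 2) * S.card + M0) * ((5 / 6) ^ Λ.card * Np) := by
    rw [hY, mul_assoc]
    refine mul_le_mul ?_ (mul_le_mul_of_nonneg_right (pow_le_pow_left₀ (by norm_num) (by norm_num) _) hNp0)
      (by positivity) (by positivity)
    have e1 : (4 : ℝ) ^ S.card = 2 ^ (2 * S.card) := by rw [pow_mul]; norm_num
    rw [e1]
    refine pow_le_pow_right₀ (by norm_num) ?_
    have : 2 * S.card ≤ (C + 2) * S.card := Nat.mul_le_mul_right _ (by omega)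
    omega
  have g2 : X ≤ 2 ^ ((C + 2) * S.card + M0) * ((5 / 6) ^ Λ.card * Np) := by
    rw [hX, mul_assoc]
    refine mul_le_mul_of_nonneg_right ?_ g0
    refine pow_le_pow_right₀ (by norm_num) ?_
    rw [hM]
    have : C * S.card ≤ (C + 2) * S.card := Nat.mul_le_mul_right _ (by omega)
    omega
  set Z := 2 ^ ((C + 2) * S.card + M0) * ((5 / 6) ^ Λ.card * Np) with hZ
  have hZ0 : 0 ≤ Z := by positivity
  have hfin : (((Pi.filter fun T => ¬ NiceC (dg P0) mv C M0 r (FxR r ξ T) (xR a T)).card : ℕ) : ℝ) ≤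
      2 ^ (n ^ 2 + 2) * Z := by
    have e1 : (2 : ℝ) ^ (n ^ 2 + 2) * Z = 4 * (2 ^ (n ^ 2) * Z) := by ring
    have e2 := mul_le_mul_of_nonneg_right h1p hZ0
    have e3 : (2 : ℝ) ^ (n ^ 2) * X ≤ 2 ^ (n ^ 2) * Z := mul_le_mul_of_nonneg_left g2 (by positivity)
    rw [e1]
    linarith
  refine hfin.trans (le_of_eq ?_)
  rw [hZ]
  unfold nnM sfx smv
  rw [show n ^ 2 + 2 + (C + 2) * (univ.filter fun i => i ∉ mv ∧ r ∣ dg P0 i).card + M0 =
    (n ^ 2 + 2) + ((C + 2) * S.card + M0) by rw [hS]; ring, pow_add 2 (n ^ 2 + 2)]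
  ring

end Pool.Agent.Q299.GL
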