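import Pool.Agent.Q269.GL.StC
import Pool.Agent.Q52.GJ.RPS

/-!
# Project GL (helper269): jobs RPX and CJD (helper299)
-/

set_option autoImplicit false
set_option linter.all false

open scoped Classical
open Finset Polynomial

namespace Pool.Agent.Q299.GL

open Pool.Agent.Q269.GR (F2 IsRt Un xi Fr Dn)
open Pool.Agent.Q269.GL
open Pool.Agent.Q269.GJ (IsR KD)
open Pool.Agent.Q52.GJ (minpoly_ord conj_of_minpoly isRt_pow isRt_sq isRt_inv isRt_ne)

theorem cj_iff (r u v : ℕ) : Cj r u v ↔ ∃ i : ℕ, (v : ZMod r) = 2 ^ i * u ∨ (v : ZMod r) = -(2 ^ i * u) := by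
  unfold Cj
  refine exists_congr fun i => or_congr ?_ ?_
  · rw [← ZMod.natCast_eq_natCast_iff]
    push_cast
    rfl
  · rw [← ZMod.natCast_eq_zero_iff]
    push_cast
    exact add_eq_zero_iff_eq_neg

theorem two_inv {r : ℕ} (hr : Odd r) (i : ℕ) : ∃ j : ℕ, (2 : ZMod r) ^ j * 2 ^ i = 1 := by
  have hc : Nat.Coprime 2 r := (Nat.coprime_two_left).2 hr
  have h1 : (2 : ZMod r) ^ Nat.totient r = 1 := by
    have := ZMod.pow_totient (ZMod.unitOfCoprime 2 hc)
    have h2 := congrArg Units.val this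
    rw [Units.val_pow_eq_pow_val, ZMod.coe_unitOfCoprime, Units.val_one] at h2
    exact_mod_cast h2
  have hr0 : 0 < r := hr.pos
  have ht : 0 < Nat.totient r := Nat.totient_pos.2 hr0
  refine ⟨Nat.totient r * i - i, ?_⟩
  rw [← pow_add, Nat.sub_add_cancel (Nat.le_mul_of_pos_left i ht), pow_mul, h1, one_pow]

theorem cj_refl (r u : ℕ) : Cj r u u := (cj_iff r u u).2 ⟨0, Or.inl (by simp)⟩

theorem cj_symm {r u v : ℕ} (hr : Odd r) (h : Cj r u v) : Cj r v u := by
  rw [cj_iff] at h ⊢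
  obtain ⟨i, h⟩ := h
  obtain ⟨j, hj⟩ := two_inv hr i
  refine ⟨j, ?_⟩
  rcases h with h | h
  · left
    rw [h, ← mul_assoc, hj, one_mul]
  · right
    rw [h, mul_neg, neg_neg, ← mul_assoc, hj, one_mul]

theorem cj_trans {r u v w : ℕ} (h : Cj r u v) (h' : Cj r v w) : Cj r u w := by
  rw [cj_iff] at h h' ⊢
  obtain ⟨i, h⟩ := h
  obtain ⟨j, h'⟩ := h'
  refine ⟨j + i, ?_⟩
  rcases h with h | h
  · rcases h' with h' | h'
    · left
      rw [h', h, pow_add]; ring
    · right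
      rw [h', h, pow_add]; ring
  · rcases h' with h' | h'
    · right
      rw [h', h, pow_add]; ring
    · left
      rw [h', h, pow_add]; ring

theorem pow_iff {F : Type} [Field F] {x : F} (hx : x ≠ 0) (n m : ℕ) :
    x ^ n = x ^ m ↔ n ≡ m [MOD orderOf x] := by
  have h := pow_eq_pow_iff_modEq (x := Units.mk0 x hx) (n := n) (m := m)
  rw [← orderOf_units, Units.val_mk0] at h
  rw [← h, ← Units.val_inj, Units.val_pow_eq_pow_val, Units.val_pow_eq_pow_val, Units.val_mk0]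

theorem xi_conj (h : Pool.Agent.Q269.GR.S_XIR) {r u v : ℕ} (hr : Odd r) (h1 : 1 < r) (i : ℕ) :
    (xi r ^ v = (xi r ^ u) ^ 2 ^ i → v ≡ 2 ^ i * u [MOD r]) ∧
    ((xi r ^ v)⁻¹ = (xi r ^ u) ^ 2 ^ i → r ∣ v + 2 ^ i * u) := by
  have hx := h r hr h1
  have hx0 : xi r ≠ 0 := isRt_ne hx
  constructor
  · intro e
    rw [← pow_mul, mul_comm u] at e
    have := (pow_iff hx0 _ _).1 e
    rwa [hx.ord] at this
  · intro e
    rw [← pow_mul, mul_comm u] at e
    have e2 : xi r ^ (v + 2 ^ i * u) = 1 := by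
      rw [pow_add, ← e]
      exact mul_inv_cancel₀ (pow_ne_zero _ hx0)
    rw [← hx.ord]
    exact orderOf_dvd_of_pow_eq_one e2

theorem rpx_one (h : Pool.Agent.Q269.GR.S_XIR) :
    ∀ R : Finset (ℕ × ℕ), (∀ p ∈ R, Odd p.1 ∧ 1 < p.1 ∧ Nat.Coprime p.2 p.1) →
    (∀ p ∈ R, ∀ p' ∈ R, p ≠ p' → p.1 = p'.1 → ¬ Cj p.1 p.2 p'.2) → IsR R := by
  intro R hR hne
  refine ⟨hR, ?_⟩
  rintro ⟨r, u⟩ hp ⟨r', u'⟩ hp' hpp
  obtain ⟨o1, l1, c1⟩ := hR _ hp
  obtain ⟨o2, l2, c2⟩ := hR _ hp'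
  have q1 := isRt_pow h o1 l1 c1
  have q2 := isRt_pow h o2 l2 c2
  have hn := hne _ hp _ hp' hpp
  simp only [] at *
  constructor
  · intro e
    have e1 := minpoly_ord e
    rw [q1.ord, q2.ord] at e1
    subst e1
    obtain ⟨i, hi⟩ := conj_of_minpoly e.symm
    exact hn rfl ⟨i, Or.inl ((xi_conj h o1 l1 i).1 hi)⟩
  · intro e
    have e1 := minpoly_ord e
    rw [q1.ord, (isRt_inv q2).ord] at e1
    subst e1
    obtain ⟨i, hi⟩ := conj_of_minpoly e.symm
    exact hn rfl ⟨i, Or.inr ((xi_conj h o1 l1 i).2 hi)⟩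

theorem rpx_two : ∀ r : ℕ, Odd r → 1 < r → ∀ u : ℕ, Nat.Coprime u r → ∃ v ∈ rp r, Cj r v u := by
  intro r hr h1 u hu
  have hex : ∃ v, Nat.Coprime v r ∧ Cj r v u := ⟨u, hu, cj_refl r u⟩
  set v := Nat.find hex with hv
  obtain ⟨hv1, hv2⟩ := Nat.find_spec hex
  rw [← hv] at hv1 hv2
  refine ⟨v, ?_, hv2⟩
  unfold rp
  rw [mem_filter, mem_range]
  refine ⟨?_, hv1, ?_⟩
  · have hc : Nat.Coprime (u % r) r := by
      have := Nat.gcd_rec r u
      rw [Nat.Coprime, ← this, Nat.gcd_comm]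
      exact hu
    have h2 : Cj r (u % r) u := by
      refine ⟨0, Or.inl ?_⟩
      rw [pow_zero, one_mul]
      exact (Nat.mod_modEq u r).symm
    exact (Nat.find_min' hex ⟨hc, h2⟩).trans_lt (Nat.mod_lt _ (by omega))
  · intro w hw hwc hwv
    exact Nat.find_min hex hw ⟨hwc, cj_trans hwv hv2⟩

theorem rpx_three : ∀ r : ℕ, Odd r → 1 < r → ∀ u ∈ rp r, ∀ v ∈ rp r, Cj r u v → u = v := by
  intro r hr h1 u hu v hv h
  unfold rp at hu hv
  rw [mem_filter, mem_range] at hu hv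
  rcases lt_trichotomy u v with h2 | h2 | h2
  · exact absurd h (hv.2.2 u h2 hu.2.1)
  · exact h2
  · exact absurd (cj_symm hr h) (hu.2.2 v h2 hv.2.1)

/-- the group of the powers of `2` up to sign -/
noncomputable def Hs (r : ℕ) [NeZero r] (t : (ZMod r)ˣ) : Finset (ZMod r)ˣ :=
  univ.filter fun z => ∃ i : ℕ, z = t ^ i ∨ z = -(t ^ i)

theorem card_Hs (r : ℕ) [NeZero r] (t : (ZMod r)ˣ) :
    (Hs r t).card = if ∃ i : ℕ, (-1 : (ZMod r)ˣ) = t ^ i then orderOf t else 2 * orderOf t := by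
  set P : Finset (ZMod r)ˣ := univ.filter (fun z => ∃ i : ℕ, z = t ^ i) with hP
  have hPc : P.card = orderOf t := by
    have : P = (range (orderOf t)).image (fun i => t ^ i) := by
      ext z
      rw [hP, mem_filter, mem_image]
      constructor
      · rintro ⟨_, i, rfl⟩
        refine ⟨i % orderOf t, mem_range.2 (Nat.mod_lt _ (orderOf_pos t)), ?_⟩
        exact pow_mod_orderOf t i
      · rintro ⟨i, _, rfl⟩
        exact ⟨mem_univ _, i, rfl⟩
    rw [this, card_image_of_injOn, card_range]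
    intro i hi j hj hij
    exact pow_injOn_Iio_orderOf (by simpa using hi) (by simpa using hj) hij
  have hinv : ∀ i : ℕ, ∃ j : ℕ, (t ^ i)⁻¹ = t ^ j := fun i => by
    obtain ⟨j, hj⟩ := (isOfFinOrder_of_finite (t ^ i)).mem_powers_iff_mem_zpowers.2
      (Subgroup.inv_mem _ (Subgroup.mem_zpowers (t ^ i)))
    exact ⟨i * j, by rw [← hj, pow_mul]⟩
  split_ifs with h
  · obtain ⟨m, hm⟩ := h
    rw [← hPc]
    congr 1
    ext z
    rw [Hs, hP, mem_filter, mem_filter]
    refine and_congr_right fun _ => ?_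
    constructor
    · rintro ⟨i, rfl | rfl⟩
      · exact ⟨i, rfl⟩
      · refine ⟨m + i, ?_⟩
        rw [pow_add, ← hm, neg_one_mul]
    · rintro ⟨i, rfl⟩
      exact ⟨i, Or.inl rfl⟩
  · have hu : Hs r t = P ∪ P.image (fun z => -z) := by
      ext z
      rw [Hs, hP, mem_filter, mem_union, mem_filter, mem_image]
      constructor
      · rintro ⟨_, i, rfl | rfl⟩
        · exact Or.inl ⟨mem_univ _, i, rfl⟩
        · exact Or.inr ⟨t ^ i, mem_filter.2 ⟨mem_univ _, i, rfl⟩, rfl⟩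
      · rintro (⟨_, i, rfl⟩ | ⟨w, hw, rfl⟩)
        · exact ⟨mem_univ _, i, Or.inl rfl⟩
        · obtain ⟨_, i, rfl⟩ := mem_filter.1 hw
          exact ⟨mem_univ _, i, Or.inr rfl⟩
    have hd : Disjoint P (P.image (fun z => -z)) := by
      rw [disjoint_left]
      intro z hz hz'
      obtain ⟨_, i, rfl⟩ := mem_filter.1 hz
      obtain ⟨w, hw, hw'⟩ := mem_image.1 hz'
      obtain ⟨_, j, rfl⟩ := mem_filter.1 hw
      apply h
      obtain ⟨l, hl⟩ := hinv j
      refine ⟨i + l, ?_⟩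
      rw [pow_add, ← hl, ← hw', neg_mul, mul_inv_cancel]
    rw [hu, card_union_of_disjoint hd, card_image_of_injective _ neg_injective, hPc]
    ring

theorem rpx_four : ∀ r : ℕ, Odd r → 1 < r →
    (rp r).card * (if Un r then orderOf (2 : ZMod r) else 2 * orderOf (2 : ZMod r)) = Nat.totient r := by
  intro r hr h1
  haveI : NeZero r := ⟨by omega⟩
  have hc : Nat.Coprime 2 r := (Nat.coprime_two_left).2 hr
  set t := ZMod.unitOfCoprime 2 hc with ht
  have htv : (t : ZMod r) = 2 := by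
    rw [ht, ZMod.coe_unitOfCoprime]
    norm_num
  have hord : orderOf t = orderOf (2 : ZMod r) := by
    rw [← orderOf_units, htv]
  have hUn : (∃ i : ℕ, (-1 : (ZMod r)ˣ) = t ^ i) ↔ Un r := by
    unfold Un
    refine exists_congr fun i => ?_
    rw [← ZMod.natCast_eq_zero_iff]
    push_cast
    rw [← Units.val_inj, Units.val_neg, Units.val_one, Units.val_pow_eq_pow_val, htv]
    constructor
    · intro h
      rw [← h]
      ring
    · intro h
      rw [← sub_eq_zero, ← neg_eq_zero, ← h]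
      ring
  have hcard : (if Un r then orderOf (2 : ZMod r) else 2 * orderOf (2 : ZMod r)) = (Hs r t).card := by
    rw [card_Hs, ← hord]
    by_cases h : Un r
    · rw [if_pos h, if_pos (hUn.2 h)]
    · rw [if_neg h, if_neg (fun h' => h (hUn.1 h'))]
  rw [hcard, ← ZMod.card_units_eq_totient r]
  -- the classes
  have hcop : ∀ x : (ZMod r)ˣ, Nat.Coprime (x : ZMod r).val r := fun x => ZMod.val_coe_unit_coprime x
  choose f hf1 hf2 using fun x : (ZMod r)ˣ => rpx_two r hr h1 _ (hcop x)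
  have e1 := card_eq_sum_card_fiberwise (s := (univ : Finset (ZMod r)ˣ)) (t := rp r) (f := f)
    (fun x _ => hf1 x)
  rw [← card_univ, e1]
  rw [sum_congr rfl (fun v hv => ?_), sum_const, smul_eq_mul]
  -- each fibre
  have hvc : Nat.Coprime v r := by
    unfold rp at hv
    exact (mem_filter.1 hv).2.1
  set g := ZMod.unitOfCoprime v hvc with hg
  have hgv : (g : ZMod r) = v := by rw [hg, ZMod.coe_unitOfCoprime]
  have hfib : (univ.filter fun x : (ZMod r)ˣ => f x = v) = (Hs r t).image (fun z => z * g) := by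
    ext x
    rw [mem_filter, mem_image]
    have hx : f x = v ↔ Cj r v (x : ZMod r).val := by
      constructor
      · intro h
        rw [← h]
        exact hf2 x
      · intro h
        exact rpx_three r hr h1 _ (hf1 x) _ hv (cj_trans (hf2 x) (cj_symm hr h))
    rw [and_iff_right (mem_univ x), hx, cj_iff]
    have hxv : (((x : ZMod r).val : ℕ) : ZMod r) = x := ZMod.natCast_zmod_val _
    rw [hxv]
    constructor
    · rintro ⟨i, h | h⟩
      · refine ⟨t ^ i, mem_filter.2 ⟨mem_univ _, i, Or.inl rfl⟩, ?_⟩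
        rw [← Units.val_inj, Units.val_mul, Units.val_pow_eq_pow_val, htv, hgv, h]
      · refine ⟨-(t ^ i), mem_filter.2 ⟨mem_univ _, i, Or.inr rfl⟩, ?_⟩
        rw [← Units.val_inj, Units.val_mul, Units.val_neg, Units.val_pow_eq_pow_val, htv, hgv, h, neg_mul]
    · rintro ⟨z, hz, rfl⟩
      obtain ⟨_, i, hz | hz⟩ := mem_filter.1 hz
      · refine ⟨i, Or.inl ?_⟩
        rw [hz, Units.val_mul, Units.val_pow_eq_pow_val, htv, hgv]
      · refine ⟨i, Or.inr ?_⟩
        rw [hz, Units.val_mul, Units.val_neg, Units.val_pow_eq_pow_val, htv, hgv, neg_mul]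
  have e3 : (univ.filter fun x : (ZMod r)ˣ => f x = v).card = (Hs r t).card := by
    rw [hfib, card_image_of_injective _ (mul_left_injective g)]
  convert e3 using 2

/-- **GL-RPX.** -/
theorem t_RPX (h : Pool.Agent.Q269.GR.S_XIR) : S_RPX :=
  ⟨rpx_one h, rpx_two, rpx_three, rpx_four⟩

/-- **GL-CJD.** -/
theorem t_CJD (h1 : S_CNF) (h2 : Pool.Agent.Q269.GR.S_XIR) (h3 : Pool.Agent.Q269.GR.S_UNR) : S_CJD := by
  intro k _ _ hk hm Δ hΔ n hn a m D hD r u v hr hr1 hu hc
  have hx := h2 r hr hr1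
  have hx0 : xi r ≠ 0 := isRt_ne hx
  have hxu := isRt_pow h2 hr hr1 hu
  have step : ∀ i : ℕ, Module.finrank (Fr r) (KD r ((xi r ^ u) ^ 2 ^ i) a D) =
      Module.finrank (Fr r) (KD r (xi r ^ u) a D) ∧ IsRt r ((xi r ^ u) ^ 2 ^ i) := by
    intro i
    induction i with
    | zero =>
      rw [pow_zero, pow_one]
      exact ⟨rfl, hxu⟩
    | succ i ih =>
      have e : (xi r ^ u) ^ 2 ^ (i + 1) = ((xi r ^ u) ^ 2 ^ i) ^ 2 := by rw [pow_succ 2, pow_mul]
      rw [e]
      refine ⟨?_, isRt_sq ih.2⟩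
      rw [(h1 k hk hm Δ hΔ n hn a m D hD r (Fr r) _ ih.2).1]
      exact ih.1
  obtain ⟨i, h | h⟩ := hc
  · have e : xi r ^ v = (xi r ^ u) ^ 2 ^ i := by
      rw [← pow_mul, mul_comm u]
      rw [pow_iff hx0, hx.ord]
      exact h
    rw [e]
    exact (step i).1
  · have e : xi r ^ v = ((xi r ^ u) ^ 2 ^ i)⁻¹ := by
      rw [← pow_mul, mul_comm u]
      apply eq_inv_of_mul_eq_one_left
      rw [← pow_add]
      rw [← hx.ord] at h
      exact orderOf_dvd_iff_pow_eq_one.1 h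
    rw [e, (h1 k hk hm Δ hΔ n hn a m D hD r (Fr r) _ (step i).2).2]
    exact (step i).1

end Pool.Agent.Q299.GL
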