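import Pool.Agent.Q269.GL.StC
import Pool.Agent.Q190.GJ.REA

/-!
# Project GL (helper269): job REF (helper299)

Adapted from `Pool/Agent/Q190/GJ/REA.lean` (helper190): the bijection there is linear.
-/

set_option autoImplicit false
set_option linter.all false

open scoped Classical
open Finset Polynomial

namespace Pool.Agent.Q299.GL

open Pool.Agent.Q269.GR (F2 cf ev Un Eb dl IsRt gg Bt AA MM ts HU HG Herm hv own Irn Dn pr Fr xi Pfam dg
  Ce IsCe sT erT FxR owR A0R tn XA XB sy)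
open Pool.Agent.Q269.GJ
open Pool.Agent.Q269.GL
open Pool.Agent.Q210.GR (own_pow fin_range)
open Pool.Agent.Q190.GJ (eqn_re)
open Pool.Agent.Y164.PS (L sg L_comm L_neg_left)

section re

variable {F : Type} [Field F] [Algebra F2 F] {n : ℕ}

theorem Kn_fr {J J' : Type} [Fintype J] [Fintype J'] (e : J ≃ J') {M : J → J → F} {M' : J' → J' → F}
    {dd : J → F} {dd' : J' → F} {x : J → Fin n → Fin n → F2} {x' : J' → Fin n → Fin n → F2}
    (hM : ∀ i j, i ≠ j → M' (e i) (e j) = M i j)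
    (hd : ∀ i, dd' (e i) = dd i) (hx : ∀ i, x' (e i) = x i) :
    Module.finrank F (Kn M dd x) = Module.finrank F (Kn M' dd' x') := by
  let E : (J' → W0 n F) ≃ₗ[F] (J → W0 n F) := LinearEquiv.funCongrLeft F (W0 n F) e
  have hE : ∀ w : J' → W0 n F, E w = w ∘ e := fun w => rfl
  have hmem : ∀ w : J' → W0 n F, w ∈ Kn M' dd' x' ↔ E w ∈ Kn M dd x := by
    intro w
    rw [mem_Kn, mem_Kn, hE]
    constructor
    · intro h i
      rw [eqn_re e hM hd hx]
      exact h _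
    · intro h i'
      obtain ⟨i, rfl⟩ := e.surjective i'
      rw [← eqn_re e hM hd hx]
      exact h i
  have hmap : (Kn M' dd' x').map (E : (J' → W0 n F) →ₗ[F] (J → W0 n F)) = Kn M dd x := by
    ext w
    rw [Submodule.mem_map]
    constructor
    · rintro ⟨v, hv, rfl⟩
      exact (hmem v).1 hv
    · intro hw
      refine ⟨E.symm w, ?_, by simp⟩
      rw [hmem]
      simpa using hw
  rw [← hmap]
  exact (LinearEquiv.finrank_eq (E.submoduleMap (Kn M' dd' x'))).symm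

end re

/-- **GL-REF.** -/
theorem t_REF (h1 : Pool.Agent.Q269.GR.S_SYP) (h2 : Pool.Agent.Q269.GR.S_UNR)
    (h3 : Pool.Agent.Q269.GR.S_PRD) : S_REF := by
  intro k _ _ hk hm Δ hΔ n a N m P0 mv hN hce T hT r F _ _ _ ξ hξ hrN
  obtain ⟨p1, p2, p3, p4, p5, p6⟩ := h3 k Δ hΔ
  obtain ⟨hfam, hdeg, hfix⟩ := p6 m P0 mv hce T hT
  have hne : ∀ i j, i ≠ j → T i ≠ T j := fun i j h h' => h (hfam.inj h')
  have hgp : ∀ i j : Fin m, 0 < gg N (dg P0) i j := fun i j => Nat.gcd_pos_of_pos_left _ hN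
  have hgi : ∀ i j : Fin m, gg N (dg P0) i j ∣ (T i).natDegree := fun i j => by
    rw [hdeg]
    exact (Nat.gcd_dvd_right _ _).trans (Nat.gcd_dvd_left _ _)
  have hgj : ∀ i j : Fin m, gg N (dg P0) i j ∣ (T j).natDegree := fun i j => by
    rw [hdeg]
    exact (Nat.gcd_dvd_right _ _).trans (Nat.gcd_dvd_right _ _)
  have hsum : ∀ i j, i ≠ j → ∑ c, sT N P0 T i j c = L (T i) (T j) := by
    intro i j hij
    have e := (h1 k hk hm (T i) (T j) (gg N (dg P0) i j) (hfam.mon i) (hfam.irr i) (hfam.mon j) (hfam.irr j)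
      (hgp i j) (hgi i j) (hgj i j)).1 (hne i j hij)
    rw [← e]
    exact fin_range _ fun c => sy (gg N (dg P0) i j) (T i) (T j) c
  have hA : ∀ i j, i ≠ j → AA N (dg P0) mv (A0R T) (sT N P0 T) i j = L (T j) (T i) := by
    intro i j hij
    unfold AA
    split_ifs with c1 c2
    · exact hsum j i hij.symm
    · rw [hsum i j hij, L_comm hm]
    · rfl
  have hr0 : 0 < r := by have := hξ.lt; omega
  have hξr : ξ ^ r = 1 := by rw [← hξ.ord]; exact pow_orderOf_eq_one ξ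
  have hξ0 : ξ ≠ 0 := by
    intro h
    rw [h, zero_pow hr0.ne'] at hξr
    exact zero_ne_one hξr
  have hξr' : ξ⁻¹ ^ r = 1 := by rw [inv_pow, hξr, inv_one]
  obtain ⟨u1, u2, u3, u4, u5, u6, u7⟩ := h2 r F ξ hξ
  -- SYP (5) and (6)
  have hev : ∀ i j, i ≠ j → ∀ g, 0 < g → g ∣ (T i).natDegree → g ∣ (T j).natDegree → r ∣ g → ∀ ζ : F,
      ζ ^ r = 1 → hv r ζ (T i) (T j) = ev ζ (fun c : Fin g => sy g (T i) (T j) c) := by
    intro i j hij g hg hgi hgj hrg ζ hζ
    exact (h1 k hk hm (T i) (T j) g (hfam.mon i) (hfam.irr i) (hfam.mon j) (hfam.irr j)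
      hg hgi hgj).2.2.2.2.1 (hne i j hij) F ζ r hr0 hrg hζ
  have hinv : ∀ i j, i ≠ j → r ∣ (T i).natDegree → r ∣ (T j).natDegree →
      hv r ξ (T j) (T i) = hv r ξ⁻¹ (T i) (T j) := by
    intro i j hij hi hj
    exact (h1 k hk hm (T i) (T j) r (hfam.mon i) (hfam.irr i) (hfam.mon j) (hfam.irr j)
      hr0 hi hj).2.2.2.2.2 (hne i j hij) F ξ hξr
  obtain ⟨q1, q2⟩ := p1 (Fin m) T hfam
  set D := ∏ i, T i with hD
  have hmem : ∀ i, T i ∈ pr D := fun i => by rw [q1]; exact mem_image_of_mem _ (mem_univ _)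
  let e0 : Fin m ≃ {P : k[X] // P ∈ pr D} := Equiv.ofBijective (fun i => ⟨T i, hmem i⟩) (by
    constructor
    · intro i j h
      exact hfam.inj (congrArg Subtype.val h)
    · rintro ⟨P, hP⟩
      have hP' := hP
      rw [q1, mem_image] at hP'
      obtain ⟨i, _, hi⟩ := hP'
      exact ⟨i, Subtype.ext hi⟩)
  have he0 : ∀ i, ((e0 i : {P : k[X] // P ∈ pr D}) : k[X]) = T i := fun i => rfl
  let e : {i : Fin m // r ∣ dg P0 i} ≃ {i : {P : k[X] // P ∈ pr D} // r ∣ (i.1).natDegree} :=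
    e0.subtypeEquiv fun i => by rw [he0, hdeg]
  have he : ∀ i : {i : Fin m // r ∣ dg P0 i}, ((e i).1 : {P : k[X] // P ∈ pr D}) = e0 i.1 := fun i => rfl
  have key := Kn_fr (F := F) (n := n) e
    (M := fun i j => MM N (dg P0) mv (FxR r ξ T) ξ (sT N P0 T) i.1 j.1)
    (M' := fun i j => hv r ξ (j.1 : k[X]) (i.1 : k[X]))
    (dd := fun i => owR r ξ T i.1 + cf (∑ j, if j = i.1 then 0 else
      AA N (dg P0) mv (A0R T) (sT N P0 T) i.1 j))
    (dd' := fun i => own r ξ (i.1 : k[X]) + cf (∑ j : {P : k[X] // P ∈ pr D},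
      if j = i.1 then 0 else L (j : k[X]) (i.1 : k[X])))
    (x := fun i => xR a T i.1) (x' := fun i => xb a (i.1 : k[X]))
    ?_ ?_ ?_
  · unfold KM KD KF
    convert key using 14
  · -- the matrix
    intro i j hij
    have hij' : i.1 ≠ j.1 := fun h => hij (Subtype.ext h)
    have hi' : r ∣ (T i.1).natDegree := by rw [hdeg]; exact i.2
    have hj' : r ∣ (T j.1).natDegree := by rw [hdeg]; exact j.2
    show hv r ξ ((e j).1 : k[X]) ((e i).1 : k[X]) = MM N (dg P0) mv (FxR r ξ T) ξ (sT N P0 T) i.1 j.1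
    rw [he, he, he0, he0]
    unfold MM
    have hrg : ∀ x y : {i : Fin m // r ∣ dg P0 i}, r ∣ gg N (dg P0) x.1 y.1 := fun x y =>
      Nat.dvd_gcd hrN (Nat.dvd_gcd x.2 y.2)
    split_ifs with c1 c2
    · exact hev j.1 i.1 hij'.symm _ (hgp _ _) (hgi _ _) (hgj _ _) (hrg j i) ξ hξr
    · rw [hinv i.1 j.1 hij' hi' hj']
      exact hev i.1 j.1 hij' _ (hgp _ _) (hgi _ _) (hgj _ _) (hrg i j) ξ⁻¹ hξr'
    · unfold FxR
      rw [if_neg hij']
  · -- the diagonal
    intro i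
    show own r ξ ((e i).1 : k[X]) + cf (∑ j : {P : k[X] // P ∈ pr D},
      if j = (e i).1 then 0 else L (j : k[X]) ((e i).1 : k[X])) = _
    rw [he, he0]
    congr 2
    rw [← Equiv.sum_comp e0]
    refine sum_congr rfl fun j _ => ?_
    by_cases hji : j = i.1
    · rw [if_pos hji, if_pos (by rw [hji])]
    · rw [if_neg hji, if_neg (fun h => hji (e0.injective h)), he0, hA i.1 j (Ne.symm hji)]
  · intro i
    rfl

end Pool.Agent.Q299.GL
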